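import Pool.Agent.H34.GZZ.All
import Pool.Agent.H34.GHK.FIN
import Pool.Agent.H80.GHK.RRT
import Pool.Agent.H85.GHK.QBD
import Pool.Agent.H23.GHK.LSK
import Pool.Agent.H23.GHK.TRG
import Pool.Agent.H44.GHK.IPT
import Pool.Agent.H90.GHK.ORS
import Pool.Agent.H52.GHK.HKC
import Pool.Agent.H47.GHK.WEF

/-!
Board ghk (MP_52e316_nt): everything composed, no hypotheses.
-/

set_option autoImplicit false

namespace Pool.Agent.H34.GHK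

open Pool.Agent.H34.GM Pool.Agent.H34.GZ Pool.Agent.H34.GU Pool.Agent.H34.GA
open Pool.Agent.H68.GHK Pool.Agent.H34.GZZ Pool.Agent.H68.GHY Pool.Agent.H34.GHY

theorem c_IPT : Pool.Agent.H68.GHK.T_IPT :=
  Pool.Agent.H44.GHK.pf_IPT Pool.Agent.H34.GZ.a_VLM Pool.Agent.H34.GZ.a_RTI
    Pool.Agent.H34.GU.b_ALU

theorem c_TRF : Pool.Agent.H68.GHK.T_TRF :=
  Pool.Agent.H23.GHK.pf_TRF Pool.Agent.H34.GZ.a_VLM Pool.Agent.H34.GZ.a_RTI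
    Pool.Agent.H34.GU.b_ALU

theorem c_QBD : Pool.Agent.H68.GHK.T_QBD :=
  Pool.Agent.H85.GHK.pf_QBD c_IPT
    (Pool.Agent.H80.GHK.pf_RRT Pool.Agent.H23.GA.All.c_UBD Pool.Agent.H34.GZ.g_MSR
      Pool.Agent.H34.GZ.a_VLM) Pool.Agent.H23.GA.All.c_BIA
    Pool.Agent.H23.GA.All.c_TBA Pool.Agent.H34.GZ.g_HAR

open Pool.Agent.H23.GHY.All in
theorem c_LSK : Pool.Agent.H68.GHK.T_LSK :=
  Pool.Agent.H23.GHK.pf_LSK Pool.Agent.H34.GZ.g_MSR Pool.Agent.H34.GZ.g_HAR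
    Pool.Agent.H34.GZ.a_VLM Pool.Agent.H23.GA.All.c_BIA c_KCD c_KMD c_OCD
    Pool.Agent.H34.GZ.a_DYM c_MSD c_TRF c_IPT c_QBD

open Pool.Agent.H23.GHY.All in
/-- families which generate orthogonal spaces, with the weights `1 / Hn` -/
theorem c_GBH : Pool.Agent.H68.GHK.T_GBH :=
  pf_GBH Pool.Agent.H34.GM.pf_PRF Pool.Agent.H23.GA.All.c_ENA c_HYZ c_ENG c_TBS c_GAL c_SQD c_LSK

theorem c_ORS : Pool.Agent.H68.GHK.T_ORS :=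
  Pool.Agent.H90.GHK.pf_ORS c_IPT Pool.Agent.H34.GZ.g_HAR Pool.Agent.H34.GZ.g_HAC
    Pool.Agent.H34.GZ.g_PWC Pool.Agent.H34.GZ.a_VLM

theorem c_WYE : T_WYE := by
  intro m N _ T F lam mu σ hF
  rcases Nat.eq_zero_or_pos m with h0 | h0
  · subst h0
    have e : mu ∘ σ = mu := Subsingleton.elim _ _
    rw [e]
    exact hF
  · exact Pool.Agent.H47.GHK.wey_eig Pool.Agent.H5.GHK.pf_MNQ h0 hF σ

/-- one level, all weights -/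
theorem c_ALL (m : ℕ) (hm1 : 1 ≤ m) (ε : ℝ) (hε : 0 < ε) : ∃ C : ℝ, 0 < C ∧
    ∀ (N : ℕ) [NeZero N] (T : ℕ → Finset (ZM m)) (D : Set (V m)), SysZ m N T D →
      ∀ P : ℝ, 1 ≤ P → ∀ (S : Type) [Fintype S] [DecidableEq S]
        (F : S → Mat m → VN m N → ℂ) (lam : S → ℕ → ℂ) (W : S → ℝ),
        (∀ i, CusB m N T (F i) (lam i) ∧ Lip D (F i) P) → Orthn D F → (∀ i, 0 ≤ W i) →
        (∀ i, W i ≤ 1 ∨ (∃ mu : Fin m → ℂ, EigU m N T (F i) (lam i) mu ∧ W i ≤ pl mu) ∨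
          ((∀ j, j ≠ i → ∀ u : Mat m, u.det ≠ 0 → ip D (rt u (F i)) (F j) = 0) ∧
            W i ≤ (Hn (1 / (2 * (m : ℝ))) D (F i))⁻¹)) →
        ∃ L : S → ℂ → ℂ, (∀ i, IsL m 1 (lam i) (L i)) ∧
          ∀ J : S → Finset ℝ, (∀ i, Wsp (J i)) → (∀ i, ∀ t ∈ J i, |t| ≤ P) →
            ∑ i, W i * ∑ t ∈ J i, ‖L i (1 / 2 + t * Complex.I)‖ ^ 4 ≤
              C * ((N : ℝ) * P) ^ ε * (N : ℝ) ^ m * P ^ (m ^ 2) :=
  lev_all c_GBZ c_GBH Pool.Agent.H52.GHK.c_HKW c_ORS Pool.Agent.H34.GU.b_APU c_WYE m hm1 ε hε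

end Pool.Agent.H34.GHK
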