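import Pool.Agent.H34.GHK.GBK
import Pool.Agent.H34.GZZ.HYZ
import Pool.Agent.H23.GHK.WTS

/-!
Board ghk: from the inequality of Bessel with weights to the weighted fourth moment at well spaced points.
-/

set_option autoImplicit false

namespace Pool.Agent.H34.GHK

open MeasureTheory Pool.Agent.H34.GM Pool.Agent.H34.GZ Pool.Agent.H34.GU Pool.Agent.H34.GA
open Pool.Agent.H68.GHY Pool.Agent.H23.GB Pool.Agent.H34.GHY Pool.Agent.H34.GZZ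
open Pool.Agent.H69.GA Pool.Agent.H69.GB Pool.Agent.H23.GHK

theorem gbb (hENA : T_ENA) (hHYZ : T_HYZ) (hENG : T_ENG) (hTBS : T_TBS) (hGAL : T_GAL)
    (hSQD : T_SQD) (m : ℕ) (hm1 : 1 ≤ m) (ε : ℝ) (hε : 0 < ε) (χ : ℝ → ℝ) (hχ : Prof χ)
    (cM CM : ℝ) (AM : ℕ) (hcM : 0 < cM) (hCM : 1 ≤ CM) (c' : ℝ) (hc' : 0 < c')
    (hc'1 : c' ≤ 1 / 2) :
    ∃ C : ℝ, 0 < C ∧
    ∀ (N : ℕ) [NeZero N] (T : ℕ → Finset (ZM m)) (D : Set (V m)), SysZ m N T D →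
    ∀ P : ℝ, 1 ≤ P → ∀ (ι : Type) [Fintype ι] [DecidableEq ι] (F : ι → Mat m → VN m N → ℂ)
      (lam : ι → ℕ → ℂ) (W : ι → ℝ),
      (∀ i, CusB m N T (F i) (lam i) ∧ Lip D (F i) P ∧ nU D (F i) = 1) → (∀ i, 0 ≤ W i) →
      ∀ δ : ℝ, δ = c' / P →
      (∀ Y : ℝ, 2 ≤ Y → CM * N * δ⁻¹ ^ AM ≤ Y →
        BESp m (fun i => ENNReal.ofReal (W i)) lam N D χ cM δ Y) →
      ∃ L : ι → ℂ → ℂ, (∀ i, IsL m 1 (lam i) (L i)) ∧
        ∀ J : ι → Finset ℝ, (∀ i, Wsp (J i)) → (∀ i, ∀ t ∈ J i, |t| ≤ P) →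
        ∑ i, W i * ∑ t ∈ J i, ‖L i (1 / 2 + t * Complex.I)‖ ^ 4 ≤
          C * ((N : ℝ) * P) ^ ε * (N : ℝ) ^ m * P ^ (m ^ 2) := by
  obtain ⟨e1, A, he1, hA, h⟩ := gbk hENA hHYZ m hm1 ε hε
  obtain ⟨Ca, Ka, hCa, hLa⟩ := lsd_w hENG hTBS m hm1 (e1 / 2) (by positivity) χ hχ cM CM AM hcM hCM
  obtain ⟨Cb, Kb, hCb, hLb⟩ := lsd_w hENG hTBS m hm1 e1 he1 χ hχ cM CM AM hcM hCM
  obtain ⟨Cq, hCq, hQ⟩ := lt4_w hGAL hSQD m
  obtain ⟨C3, hC3, hR⟩ := crd_w m e1 he1 (Cq * Ca) (by positivity) Ka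
  obtain ⟨C1, hC1, hD⟩ := dyd_w m e1 A he1 hA (Cq * Cb) (by positivity) Kb
  obtain ⟨C, hC, hb⟩ := h c' C1 C3 hc' hc'1 hC1 hC3
  refine ⟨C, hC, ?_⟩
  intro N _ T D hS P hP ι _ _ F lam W hF hW δ hδ hBes
  have hP0 : 0 < P := by linarith
  have hN1 : 1 ≤ N := by
    have := hS.two_le
    omega
  have hδ0 : 0 < δ := by rw [hδ]; positivity
  have hδP : δ * P = c' := by rw [hδ]; field_simp
  have hδP1 : δ ≤ δ * P := le_mul_of_one_le_right hδ0.le hP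
  have hδ1 : δ ≤ 1 / 2 := by linarith
  have hWt : ∀ i, (fun i => ENNReal.ofReal (W i)) i ≠ ⊤ := fun i => ENNReal.ofReal_ne_top
  have h1 : ∀ i, lam i 1 = 1 := fun i =>
    lam_one hS (hF i).1.toHecA (spx_nz hS (by rw [(hF i).2.2]; exact one_ne_zero))
  have hLTa := hQ (e1 / 2) Ca Ka ι (fun i => ENNReal.ofReal (W i)) lam N δ hδ0 hδ1
    (hLa N D hS.two_le hS.dom δ hδ0 hδ1 ι (fun i => ENNReal.ofReal (W i)) lam hWt hBes)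
  have hLTb := hQ e1 Cb Kb ι (fun i => ENNReal.ofReal (W i)) lam N δ hδ0 hδ1
    (hLb N D hS.two_le hS.dom δ hδ0 hδ1 ι (fun i => ENNReal.ofReal (W i)) lam hWt hBes)
  refine hb N T D hS P hP ι F lam W hF hW δ hδ ?_ ?_
  · have h2 := hR ι (fun i => ENNReal.ofReal (W i)) lam N δ hN1 hδ0 hδ1 h1 hLTa
    rw [← ENNReal.ofReal_sum_of_nonneg (fun i _ => hW i),
      ← ENNReal.ofReal_mul (Finset.sum_nonneg fun i _ => hW i),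
      ENNReal.ofReal_le_ofReal_iff (by positivity)] at h2
    exact h2
  · intro X hX1 hX2 τ
    exact hD ι (fun i => ENNReal.ofReal (W i)) lam N δ hS.two_le hδ0 hδ1 hWt hLTb X hX1 hX2 τ

end Pool.Agent.H34.GHK
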